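import Pool.Agent.DB.Main

/-!
# Plane indecomposable arc continua separate all trees

For all trees `T₁`, `T₂` such that `T₁` is a monotone image of `T₂` but `T₂` is not a monotone image
of `T₁` there is an indecomposable arc continuum in the plane which is `T₂`-like but not `T₁`-like.
-/

set_option autoImplicit false

universe u v

namespace Pool.Agent.Results.MP_db294d_gt.PlaneArcContinua

open Pool.Agent.DB

theorem result (T₁ : Type u) (T₂ : Type v) [TopologicalSpace T₁] [TopologicalSpace T₂]
    (h₁ : TopTree T₁) (h₂ : TopTree T₂)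
    (h : MonotoneImage T₂ T₁) (h' : ¬ MonotoneImage T₁ T₂) :
    ∃ X : Set (EuclideanSpace ℝ (Fin 2)), IsCompact X ∧ IsConnected X ∧ X.Nontrivial ∧
      Indecomp X ∧ ArcCont X ∧ TLike X T₂ ∧ ¬ TLike X T₁ :=
  main T₁ T₂ h₁.treeSpace h₂.treeSpace h h'

end Pool.Agent.Results.MP_db294d_gt.PlaneArcContinua
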